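import Pool.Agent.Helper35.PI.St2

/-!
# Project PI, module G5: heat operator of the inverse metric of a graph
-/

set_option autoImplicit false

namespace Helper39.PI

open Helper35.PI
open scoped ContDiff Topology

/-- symmetry of the second spatial derivatives -/
private theorem symm_G5 {n N : ℕ} (u : EE n × ℝ → EE N) (z : EE n × ℝ) (hu : ContDiffAt ℝ ∞ u z)
    (i j : Fin n) : jgg u z i j = jgg u z j i := by
  have h2 : ContDiffAt ℝ 2 u z := hu.of_le (WithTop.coe_le_coe.2 le_top)
  have hd : DifferentiableAt ℝ (fderiv ℝ u) z :=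
    (h2.fderiv_right (m := 1) (by norm_num)).differentiableAt (by norm_num)
  have key : ∀ v w : EE n × ℝ, fderiv ℝ (fun z' => fderiv ℝ u z' w) z v = fderiv ℝ (fderiv ℝ u) z v w := by
    intro v w
    have h := hd.hasFDerivAt.clm_apply (hasFDerivAt_const w z)
    rw [h.fderiv]
    simp
  have hs : IsSymmSndFDerivAt ℝ u z := h2.isSymmSndFDerivAt (by simp)
  unfold jgg jg
  rw [key, key]
  exact hs _ _

theorem hG5 (hG0 : StG0) : StG5 := by
  intro n N x₀ L u t₀ hS i j
  obtain ⟨hc, h0, h1, ht, h2⟩ := hG0 n N x₀ L u t₀ hS i j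
  refine ⟨hc.of_le (WithTop.coe_le_coe.2 le_top), h0, h1, ?_⟩
  unfold jh
  rw [ht, zero_sub, ← Finset.sum_neg_distrib, Finset.mul_sum]
  refine Finset.sum_congr rfl (fun k _ => ?_)
  rw [h2 k k, symm_G5 u (0, t₀) hS.smooth k i, symm_G5 u (0, t₀) hS.smooth k j]
  ring

end Helper39.PI
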